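import Mathlib
import Pool.Agent.H774R5.Final
import Pool.Agent.H774R5.LimA
import Pool.Agent.H774R5.PB
import Pool.Agent.H774R5.PD
import Pool.Agent.H774R5.PE
import Pool.Agent.H774R5.FUseq
import Pool.Agent.Helper292.ForceCH

set_option autoImplicit false

/-!
# The statement of the problem is not a theorem of ZFC: it fails under the continuum hypothesis

Under CH we construct, by a recursion of length `ω₁`, points `x α` (`α < ω₁`) of the Cantor set and
a decreasing (mod finite) sequence of conditions of Silver type, such that the union `X` of the
`E₀`-classes of the points `x α` has the following properties: `X \ C` is a `γ`-set for every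
countable `C` (fusion), and uncountable families of finite tuples of points of `X` contain two
tuples increasing in all coordinates (lexicographic order). Give `X` the topology generated by the
clopen sets of the Cantor set and the half-lines `[w, ∞)` and their complements. Then all finite
powers of `X` are hereditarily Lindelöf, so `C_p(X)` is hereditarily separable; closures of
countable sets of `C_p(X)` are sequential closures because `X \ C` is a `γ`-set; and `X` is not
cosmic, since the characteristic functions of the half-lines `[w, ∞)` have no countable network.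
-/

namespace Pool.Agent.Results.MP_d23b2b_gt.ConsistentlyNot

open Pool.Agent.Helper292.ForceCH (OmegaOnePreserved CHHolds)

/-- The statement of the problem: if `C_p(X)` is hereditarily sequentially separable, then it has a
countable network. -/
def Statement : Prop :=
  ∀ (X : Type) [TopologicalSpace X] [T35Space X],
    (∀ A : Set (X → ℝ), A ⊆ {f : X → ℝ | Continuous f} →
      ∃ D : Set (X → ℝ), D ⊆ A ∧ D.Countable ∧
        ∀ f ∈ A, ∃ u : ℕ → X → ℝ, (∀ k, u k ∈ D) ∧
          Filter.Tendsto u Filter.atTop (nhds f)) →
    ∃ N : Set (Set (X → ℝ)), N.Countable ∧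
      (∀ n ∈ N, n ⊆ {f : X → ℝ | Continuous f}) ∧
      ∀ f : X → ℝ, Continuous f → ∀ U : Set (X → ℝ), IsOpen U → f ∈ U →
        ∃ n ∈ N, f ∈ n ∧ n ⊆ U

/-- (A) There is a notion of forcing all of whose conditions force that `ω₁` is preserved and that
the continuum hypothesis holds. (B) The continuum hypothesis implies that the statement of the
problem is false: there is a Tychonoff space `X` such that `C_p(X)` is hereditarily sequentially
separable but not cosmic. -/
theorem result :
    (∃ (P : Type) (_ : Preorder P), Nonempty P ∧
      ∀ p : P, p ∈ OmegaOnePreserved P ∧ p ∈ CHHolds P) ∧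
    (Cardinal.aleph.{0} 1 = Cardinal.continuum → ¬ Statement) := by
  refine ⟨?_, fun hCH hS => ?_⟩
  · obtain ⟨P, hP, hne, h⟩ := Pool.Agent.Helper292.ForceCH.exists_forcing
    exact ⟨P, hP, hne, fun p => ⟨(h p).1, (h p).2.2⟩⟩
  · obtain ⟨X, hX1, hX2, hss, hno⟩ := Pool.Agent.H774R5.final Pool.Agent.H774R5.taskA
      Pool.Agent.H774R5.TB.taskB
      (Pool.Agent.H774R5.taskE Pool.Agent.H774R5.taskD Pool.Agent.H774R5.taskN)
      (Pool.Agent.H774R5.fuseq Pool.Agent.H774R5.taskN) hCH
    exact hno (hS X hss)

end Pool.Agent.Results.MP_d23b2b_gt.ConsistentlyNot
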